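import Mathlib

/-!
# Towers of derivatives over differential fields of finite transcendence degree
-/

set_option autoImplicit false

open Polynomial Set AlgebraicIndependent

namespace Pool.Agent.Y900.JT

variable {k F : Type} [Field k] [Field F] [Algebra k F]

/-- algebraic closure of the field generated by `S` -/
def cl (k : Type) {F : Type} [Field k] [Field F] [Algebra k F] (S : Set F) : Set F := (matroid k F).closure S

theorem mem_cl {S : Set F} {x : F} : x ∈ cl k S ↔ IsAlgebraic (IntermediateField.adjoin k S) x := by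
  rw [cl, matroid_closure_eq]
  have h : Transcendental (IntermediateField.adjoin k S) x ↔ Transcendental (Algebra.adjoin k S) x :=
    IntermediateField.transcendental_adjoin_iff
  rw [SetLike.mem_coe, Subalgebra.mem_algebraicClosure]
  unfold Transcendental at h
  tauto

theorem cl_mono {S T : Set F} (h : S ⊆ T) : cl k S ⊆ cl k T := (matroid k F).closure_subset_closure h

theorem subset_cl (S : Set F) : S ⊆ cl k S := (matroid k F).subset_closure S (subset_univ _)

theorem cl_le {S T : Set F} (h : S ⊆ cl k T) : cl k S ⊆ cl k T := by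
  have := (matroid k F).closure_subset_closure h
  rwa [cl, Matroid.closure_closure] at this

/-- the closure as a field -/
noncomputable def clF (k : Type) {F : Type} [Field k] [Field F] [Algebra k F] (S : Set F) : Subfield F :=
  (algebraicClosure (IntermediateField.adjoin k S) F).toSubfield

theorem mem_clF {S : Set F} {x : F} : x ∈ clF k S ↔ x ∈ cl k S := by
  rw [mem_cl]
  exact mem_algebraicClosure_iff

theorem algebraMap_mem_clF (S : Set F) (c : k) : algebraMap k F c ∈ clF k S := by
  rw [mem_clF, mem_cl]
  exact isAlgebraic_algebraMap (⟨algebraMap k F c, (IntermediateField.adjoin k S).algebraMap_mem c⟩ :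
    IntermediateField.adjoin k S)

theorem adjoin_le_clF {S : Set F} {x : F} (hx : x ∈ IntermediateField.adjoin k S) : x ∈ clF k S := by
  rw [mem_clF, mem_cl]
  exact isAlgebraic_algebraMap (⟨x, hx⟩ : IntermediateField.adjoin k S)

/-- A derivation maps the closure of `S` to the closure of `T`, if it does so with `S`. -/
theorem cl_der [CharZero F] (D : Derivation k F F) {S T : Set F} (hST : S ⊆ T) (h : ∀ s ∈ S, D s ∈ cl k T) :
    ∀ x ∈ cl k S, D x ∈ cl k T := by
  intro x hx
  have hL : ∀ y ∈ IntermediateField.adjoin k S, D y ∈ clF k T := by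
    intro y hy
    have hle : ∀ z ∈ IntermediateField.adjoin k S, z ∈ clF k T := fun z hz =>
      mem_clF.2 (cl_mono hST (mem_clF.1 (adjoin_le_clF hz)))
    induction hy using IntermediateField.adjoin_induction with
    | mem x hx => exact mem_clF.2 (h x hx)
    | algebraMap c => rw [D.map_algebraMap]; exact zero_mem _
    | add x y hx hy ihx ihy => rw [map_add]; exact add_mem ihx ihy
    | inv x hx ih =>
      rw [D.leibniz_inv, smul_eq_mul]
      exact mul_mem (neg_mem (pow_mem (inv_mem (hle x hx)) 2)) ih
    | mul x y hx hy ihx ihy =>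
      rw [D.leibniz, smul_eq_mul, smul_eq_mul]
      exact add_mem (mul_mem (hle x hx) ihy) (mul_mem (hle y hy) ihx)
  set L := IntermediateField.adjoin k S with hLdef
  have hxT : x ∈ clF k T := mem_clF.2 (cl_mono hST hx)
  have hLT : ∀ y ∈ L, y ∈ clF k T := fun y hy => mem_clF.2 (cl_mono hST (mem_clF.1 (adjoin_le_clF hy)))
  have hev : ∀ q : L[X], aeval x q ∈ clF k T := by
    intro q
    rw [aeval_eq_sum_range]
    refine sum_mem fun i _ => ?_
    rw [Algebra.smul_def]
    exact mul_mem (hLT _ (q.coeff i).2) (pow_mem hxT _)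
  have key : ∀ q : L[X], D (aeval x q) - aeval x (derivative q) * D x ∈ clF k T := by
    intro q
    induction q using Polynomial.induction_on' with
    | add p q hp hq =>
      have : D (aeval x (p + q)) - aeval x (derivative (p + q)) * D x =
          (D (aeval x p) - aeval x (derivative p) * D x) +
          (D (aeval x q) - aeval x (derivative q) * D x) := by
        rw [derivative_add, map_add, map_add, map_add]
        ring
      rw [this]
      exact add_mem hp hq
    | monomial n a =>
      rw [aeval_monomial, derivative_monomial, aeval_monomial, D.leibniz, D.leibniz_pow]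
      have e1 : (algebraMap L F a) • (n • x ^ (n - 1) • D x) + x ^ n • D (algebraMap L F a) -
          algebraMap L F (a * (n : L)) * x ^ (n - 1) * D x = x ^ n * D (a : F) := by
        rw [map_mul, map_natCast]
        simp only [smul_eq_mul, nsmul_eq_mul]
        show (a : F) * ((n : F) * (x ^ (n - 1) * D x)) + x ^ n * D (a : F) -
          (a : F) * (n : F) * x ^ (n - 1) * D x = x ^ n * D (a : F)
        ring
      rw [e1]
      exact mul_mem (pow_mem hxT n) (hL _ a.2)
  have halg : IsAlgebraic L x := mem_cl.1 hx
  have hint : IsIntegral L x := halg.isIntegral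
  have hsep : (minpoly L x).Separable := (minpoly.irreducible hint).separable
  have hne : aeval x (derivative (minpoly L x)) ≠ 0 :=
    hsep.aeval_derivative_ne_zero (minpoly.aeval L x)
  have h2 := key (minpoly L x)
  rw [minpoly.aeval, map_zero, zero_sub] at h2
  have h3 : D x = -(-(aeval x (derivative (minpoly L x)) * D x)) *
      (aeval x (derivative (minpoly L x)))⁻¹ := by
    rw [neg_neg]
    field_simp
  rw [← mem_clF, h3]
  exact mul_mem (neg_mem h2) (inv_mem (hev _))

/-- towers with `q` branches -/
structure Tow (D : Derivation k F F) (q : ℕ) (h : ℕ → F) : Prop where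
  up : ∀ n, D (h n) ∈ cl k {h n, h (n + q)}
  down : ∀ n, h (n + q) ∈ cl k {h n, D (h n)}

theorem tow_not_mem [CharZero F] {D : Derivation k F F} {q : ℕ} (hq : 0 < q) {h : ℕ → F} (hh : Tow D q h)
    (hind : AlgebraicIndependent k h) {A : Set F} (hA : A.Finite) (hDA : ∀ a ∈ A, D a ∈ cl k A) (s : ℕ) :
    h s ∉ cl k (A ∪ h '' Iio s) := by
  intro hs
  have h1 : ∀ j : ℕ, h (s + j * q) ∈ cl k (A ∪ h '' Iio (s + j * q)) := by
    intro j
    induction j with
    | zero => simpa using hs
    | succ j ih =>
      set m := s + j * q with hm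
      have e1 : s + (j + 1) * q = m + q := by rw [hm]; ring
      rw [e1]
      have hsub : A ∪ h '' Iio m ⊆ A ∪ h '' Iio (m + q) :=
        union_subset_union_right _ (image_mono (Iio_subset_Iio (by omega)))
      have hD := cl_der D hsub (by
        rintro x (hx | ⟨n, hn, rfl⟩)
        · exact cl_mono subset_union_left (hDA x hx)
        · refine cl_le ?_ (hh.up n)
          rintro y (rfl | rfl)
          · exact subset_cl _ (Or.inr ⟨n, by rw [mem_Iio] at *; omega, rfl⟩)
          · exact subset_cl _ (Or.inr ⟨n + q, by rw [mem_Iio] at *; omega, rfl⟩)) _ ih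
      refine cl_le ?_ (hh.down m)
      rintro y (rfl | rfl)
      · exact subset_cl _ (Or.inr ⟨m, by rw [mem_Iio]; omega, rfl⟩)
      · exact hD
  obtain ⟨a, ha⟩ : ∃ a : ℕ, A.encard = a := ⟨A.ncard, hA.cast_ncard_eq.symm⟩
  set J := a + 1 with hJ
  set N := s + J * q with hN
  set P : Set ℕ := (fun j => s + j * q) '' Iio J with hP
  set C := cl k (A ∪ h '' (Iio N \ P)) with hC
  have h2 : ∀ n, n < N → h n ∈ C := by
    intro n
    induction n using Nat.strong_induction_on with
    | _ n ih =>
      intro hn
      by_cases hnP : n ∈ P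
      · obtain ⟨j, hj, rfl⟩ := hnP
        refine cl_le ?_ (h1 j)
        rintro y (hy | ⟨i, hi, rfl⟩)
        · exact subset_cl _ (Or.inl hy)
        · exact ih i hi (lt_trans hi hn)
      · exact subset_cl _ (Or.inr ⟨n, ⟨hn, hnP⟩, rfl⟩)
  have hinj : Function.Injective h := hind.injective
  have hI : (matroid k F).Indep (h '' Iio N) := by
    have h3 : (matroid k F).Indep (range h) := (algebraicIndependent_subtype_range hinj).2 hind
    exact h3.subset (image_subset_range _ _)
  have h4 : (h '' Iio N).encard ≤ (matroid k F).eRk C := hI.encard_le_eRk_of_subset (by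
    rintro _ ⟨n, hn, rfl⟩
    exact h2 n hn)
  have h5 : (matroid k F).eRk C ≤ A.encard + (h '' (Iio N \ P)).encard := by
    rw [hC, cl, Matroid.eRk_closure_eq]
    exact ((matroid k F).eRk_le_encard _).trans (encard_union_le _ _)
  have h6 := h4.trans h5
  rw [hinj.encard_image, hinj.encard_image, ha] at h6
  have hPN : P ⊆ Iio N := by
    rintro _ ⟨j, hj, rfl⟩
    rw [mem_Iio] at hj
    have h7 : j * q < J * q := Nat.mul_lt_mul_of_pos_right hj hq
    show s + j * q < N
    rw [hN]
    omega
  have h8 : ∀ n : ℕ, (Iio n).encard = n := by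
    intro n
    rw [← Finset.coe_Iio, Set.encard_coe_eq_coe_finsetCard, Nat.card_Iio]
  have h7 : P.encard = J := by
    rw [hP, Function.Injective.encard_image]
    · exact h8 J
    · intro i j hij
      have hij' : s + i * q = s + j * q := hij
      exact Nat.eq_of_mul_eq_mul_right hq (by omega)
  have h9 : (Iio N \ P).encard + J = N := by
    rw [← h7, encard_sdiff_add_encard_of_subset hPN, h8]
  obtain ⟨b, hb⟩ : ∃ b : ℕ, (Iio N \ P).encard = b :=
    ⟨(Iio N \ P).ncard, ((finite_Iio N).subset sdiff_subset).cast_ncard_eq.symm⟩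
  rw [hb] at h9 h6
  rw [h8] at h6
  have h10 : b + J = N := by exact_mod_cast h9
  have h11 : N ≤ a + b := by exact_mod_cast h6
  omega

theorem tow_indep [CharZero F] {D : Derivation k F F} {q : ℕ} (hq : 0 < q) {h : ℕ → F} (hh : Tow D q h)
    (hind : AlgebraicIndependent k h) {A : Set F} (hA : A.Finite) (hDA : ∀ a ∈ A, D a ∈ cl k A) {ι : Type}
    {b : ι → F} (hb : AlgebraicIndependent k b) (hbA : ∀ i, b i ∈ cl k A) (N : ℕ) :
    AlgebraicIndependent k (Sum.elim b fun n : Fin N => h n) := by
  have hn := tow_not_mem hq hh hind hA hDA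
  have hset : ∀ N, (matroid k F).Indep (range b ∪ h '' Iio N) := by
    intro N
    induction N with
    | zero =>
      have : Iio (0 : ℕ) = ∅ := by ext x; simp
      rw [this, image_empty, union_empty]
      exact (algebraicIndependent_subtype_range hb.injective).2 hb
    | succ N ih =>
      have e1 : range b ∪ h '' Iio (N + 1) = insert (h N) (range b ∪ h '' Iio N) := by
        have : Iio (N + 1) = insert N (Iio N) := by
          ext x
          rw [mem_insert_iff, mem_Iio, mem_Iio]
          omega
        rw [this, image_insert_eq, union_insert]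
      rw [e1]
      refine (ih.notMem_closure_iff (mem_univ _)).1 (fun hmem => hn N ?_) |>.1
      refine cl_le ?_ hmem
      rintro y (⟨i, rfl⟩ | hy)
      · exact cl_mono subset_union_left (hbA i)
      · exact subset_cl _ (Or.inr hy)
  have hinj : Function.Injective (Sum.elim b fun n : Fin N => h n) := by
    rintro (i | i) (j | j) hij
    · exact congrArg Sum.inl (hb.injective hij)
    · exfalso
      have hij' : b i = h j := hij
      apply hn j
      rw [← hij']
      exact cl_mono subset_union_left (hbA i)
    · exfalso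
      have hij' : h i = b j := hij
      apply hn i
      rw [hij']
      exact cl_mono subset_union_left (hbA j)
    · exact congrArg Sum.inr (Fin.ext (hind.injective hij))
  rw [← algebraicIndependent_subtype_range hinj]
  have hr : range (Sum.elim b fun n : Fin N => h n) = range b ∪ h '' Iio N := by
    rw [Sum.elim_range]
    congr 1
    ext y
    constructor
    · rintro ⟨n, rfl⟩
      exact ⟨n, n.2, rfl⟩
    · rintro ⟨n, hn, rfl⟩
      exact ⟨⟨n, hn⟩, rfl⟩
  rw [hr]
  exact hset N

/-- an enumeration of the members of finitely many towers -/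
theorem exists_enum {γ : Type} [Fintype γ] [Nonempty γ] : ∃ (q : ℕ) (_ : 0 < q) (Eq : γ × ℕ ≃ ℕ),
    (∀ c k, Eq (c, k + 1) = Eq (c, k) + q) ∧ ∀ c k r, k < r → Eq (c, k) < r * q := by
  have hq0 : 0 < Fintype.card γ := Fintype.card_pos
  have : NeZero (Fintype.card γ) := ⟨hq0.ne'⟩
  let e : γ ≃ Fin (Fintype.card γ) := Fintype.equivFin γ
  let Eq : γ × ℕ ≃ ℕ := (Equiv.prodCongr e (Equiv.refl ℕ)).trans ((Equiv.prodComm _ _).trans
    (Nat.divModEquiv (Fintype.card γ)).symm)
  have hEq : ∀ c k, Eq (c, k) = k * Fintype.card γ + (e c : ℕ) := fun c k => rfl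
  refine ⟨Fintype.card γ, hq0, Eq, fun c k => ?_, fun c k r hk => ?_⟩
  · rw [hEq, hEq]
    ring
  · rw [hEq]
    have h1 : (k + 1) * Fintype.card γ ≤ r * Fintype.card γ := Nat.mul_le_mul_right _ hk
    have h2 := (e c).2
    have h3 : (k + 1) * Fintype.card γ = k * Fintype.card γ + Fintype.card γ := by ring
    omega

theorem towers_indep [CharZero F] {D : Derivation k F F} {γ : Type} [Fintype γ] [Nonempty γ] {H : γ → ℕ → F}
    (hup : ∀ c n, D (H c n) ∈ cl k {H c n, H c (n + 1)}) (hdown : ∀ c n, H c (n + 1) ∈ cl k {H c n, D (H c n)})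
    (hind : AlgebraicIndependent k fun y : γ × ℕ => H y.1 y.2) {A : Set F} (hA : A.Finite)
    (hDA : ∀ a ∈ A, D a ∈ cl k A) {ι : Type} {b : ι → F} (hb : AlgebraicIndependent k b) (hbA : ∀ i, b i ∈ cl k A)
    (r : ℕ) : AlgebraicIndependent k (Sum.elim b fun y : γ × Fin r => H y.1 y.2) := by
  obtain ⟨q, hq, e, he1, he2⟩ := exists_enum (γ := γ)
  let h : ℕ → F := fun n => H (e.symm n).1 (e.symm n).2
  have hhe : ∀ c n, h (e (c, n)) = H c n := by
    intro c n
    show H (e.symm (e (c, n))).1 (e.symm (e (c, n))).2 = _
    rw [Equiv.symm_apply_apply]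
  have hhi : AlgebraicIndependent k h := hind.comp e.symm e.symm.injective
  have htow : Tow D q h := by
    constructor
    · intro n
      obtain ⟨⟨c, m⟩, rfl⟩ := e.surjective n
      rw [← he1, hhe, hhe]
      exact hup c m
    · intro n
      obtain ⟨⟨c, m⟩, rfl⟩ := e.surjective n
      rw [← he1, hhe, hhe]
      exact hdown c m
  have h1 := tow_indep hq htow hhi hA hDA hb hbA (r * q)
  let φ : ι ⊕ (γ × Fin r) → ι ⊕ Fin (r * q) := Sum.map id fun y => ⟨e (y.1, (y.2 : ℕ)), he2 _ _ _ y.2.2⟩
  have hφ : Function.Injective φ := by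
    refine Sum.map_injective.2 ⟨Function.injective_id, fun x y hxy => ?_⟩
    have h2 := e.injective (Fin.mk.inj hxy)
    rw [Prod.mk.injEq] at h2
    exact Prod.ext h2.1 (Fin.ext h2.2)
  have h2 := h1.comp φ hφ
  have h3 : (Sum.elim b fun n : Fin (r * q) => h n) ∘ φ = Sum.elim b fun y : γ × Fin r => H y.1 y.2 := by
    funext x
    rcases x with x | y
    · rfl
    · exact hhe _ _
  rwa [h3] at h2

end Pool.Agent.Y900.JT
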