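import Pool.Agent.Y900.JT.Alg
import Pool.Agent.Y900.HY.Loc

/-!
# Iterated primitives together with towers of derivatives: local independence
-/

set_option autoImplicit false

open Filter Set
open scoped Topology

namespace Pool.Agent.Y900.JT

open Pool.Agent.Y900.HY
open Pool.Agent.Y119.UP (wd mem_wd)

theorem an_mv {ι : Type} {t₀ : ℂ} (f : ι → ℂ → ℂ) (hf : ∀ i, AnalyticAt ℂ (f i) t₀) (P : MvPolynomial ι ℂ) :
    AnalyticAt ℂ (fun t => MvPolynomial.eval (fun i => f i t) P) t₀ := by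
  induction P using MvPolynomial.induction_on with
  | C a => simp only [MvPolynomial.eval_C]; exact analyticAt_const
  | add p q hp hq => simp only [map_add]; exact hp.add hq
  | mul_X p i hp =>
    simp only [map_mul, MvPolynomial.eval_X]
    exact hp.mul (hf i)

/-- germs at `t₀` with the facts about families -/
theorem germX (t₀ : ℂ) : ∃ (E : Type) (_ : Field E) (_ : CharZero E) (_ : Algebra ℂ E) (D : Derivation ℂ E E)
    (T : (ℂ → ℂ) → E),
    (∀ c : ℂ, T (fun _ => c) = algebraMap ℂ E c) ∧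
    (∀ f g : ℂ → ℂ, AnalyticAt ℂ f t₀ → AnalyticAt ℂ g t₀ → T (fun s => f s * g s) = T f * T g) ∧
    (∀ f g : ℂ → ℂ, AnalyticAt ℂ f t₀ → (∀ᶠ s in 𝓝 t₀, HasDerivAt f (g s) s) → D (T f) = T g) ∧
    (∀ f g : ℂ → ℂ, (∀ᶠ s in 𝓝 t₀, f s = g s) → T f = T g) ∧
    (∀ {ι : Type} (f : ι → ℂ → ℂ), (∀ i, AnalyticAt ℂ (f i) t₀) →
      (AlgebraicIndependent ℂ (fun i => T (f i)) ↔
        ∀ P : MvPolynomial ι ℂ, (∀ᶠ t in 𝓝 t₀, MvPolynomial.eval (fun i => f i t) P = 0) → P = 0)) ∧
    (∀ {ι : Type} (s : Finset ι) (f : ι → ℂ → ℂ), (∀ i, AnalyticAt ℂ (f i) t₀) →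
      T (fun t => ∑ i ∈ s, f i t) = ∑ i ∈ s, T (f i)) ∧
    (∀ f : ℂ → ℂ, AnalyticAt ℂ f t₀ → AlgAt t₀ f → T f ∈ cl ℂ {T (fun s => s)}) := by
  classical
  obtain ⟨E, _, _, D, T, hconst, hTc, hTadd, hTmul, hTder, hTinj, hTcongr⟩ := germC t₀
  have hcz : CharZero E := charZero_of_injective_algebraMap (algebraMap ℂ E).injective
  have hid : AnalyticAt ℂ (fun s : ℂ => s) t₀ := analyticAt_id
  have hT0 : T (fun _ => 0) = 0 := by rw [hTc, map_zero]
  have hmv : ∀ {ι : Type} (f : ι → ℂ → ℂ), (∀ i, AnalyticAt ℂ (f i) t₀) → ∀ P : MvPolynomial ι ℂ,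
      T (fun s => MvPolynomial.eval (fun i => f i s) P) = MvPolynomial.aeval (fun i => T (f i)) P := by
    intro ι f hf P
    induction P using MvPolynomial.induction_on with
    | C x => simp only [MvPolynomial.eval_C, MvPolynomial.aeval_C]; exact hTc x
    | add P Q hP hQ =>
      simp only [map_add]
      rw [hTadd _ _ (an_mv f hf P) (an_mv f hf Q), hP, hQ]
    | mul_X P i ih =>
      simp only [map_mul, MvPolynomial.eval_X, MvPolynomial.aeval_X]
      rw [hTmul _ _ (an_mv f hf P) (hf i), ih]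
  have hai : ∀ {ι : Type} (f : ι → ℂ → ℂ), (∀ i, AnalyticAt ℂ (f i) t₀) →
      (AlgebraicIndependent ℂ (fun i => T (f i)) ↔
        ∀ P : MvPolynomial ι ℂ, (∀ᶠ t in 𝓝 t₀, MvPolynomial.eval (fun i => f i t) P = 0) → P = 0) := by
    intro ι f hf
    rw [algebraicIndependent_iff]
    refine forall_congr' fun P => ?_
    rw [← hmv f hf]
    constructor
    · intro h hP
      exact h ((hTcongr _ _ hP).trans hT0)
    · intro h hP
      exact h (hTinj _ (an_mv f hf P) hP)
  have hTsum : ∀ {ι : Type} (s : Finset ι) (f : ι → ℂ → ℂ), (∀ i, AnalyticAt ℂ (f i) t₀) →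
      T (fun t => ∑ i ∈ s, f i t) = ∑ i ∈ s, T (f i) := by
    intro ι s f hf
    induction s using Finset.induction_on with
    | empty => simp only [Finset.sum_empty]; exact hT0
    | insert i s hi ih =>
      simp only [Finset.sum_insert hi]
      rw [hTadd _ _ (hf i) (Finset.analyticAt_fun_sum _ fun i _ => hf i), ih]
  have hpolyan : ∀ P : Polynomial ℂ, AnalyticAt ℂ (fun s => P.eval s) t₀ := fun P =>
    AnalyticOnNhd.eval_polynomial P t₀ (mem_univ _)
  have hpoly : ∀ P : Polynomial ℂ, T (fun s => P.eval s) = Polynomial.aeval (T fun s => s) P := by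
    intro P
    induction P using Polynomial.induction_on with
    | C x => simp only [Polynomial.eval_C, Polynomial.aeval_C]; exact hTc x
    | add P Q hP hQ =>
      simp only [Polynomial.eval_add, map_add]
      rw [hTadd _ _ (hpolyan P) (hpolyan Q), hP, hQ]
    | monomial n x ih =>
      have h1 : (fun s => (Polynomial.C x * Polynomial.X ^ (n + 1)).eval s) =
          fun s => (Polynomial.C x * Polynomial.X ^ n).eval s * s := by
        funext s
        rw [pow_succ, ← mul_assoc, Polynomial.eval_mul, Polynomial.eval_X]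
      rw [h1, hTmul _ _ (hpolyan _) hid, ih, pow_succ, ← mul_assoc, map_mul _ _ Polynomial.X, Polynomial.aeval_X]
  have hτtr : Transcendental ℂ (T (fun s => s)) := by
    rw [transcendental_iff]
    intro P hP
    rw [← hpoly] at hP
    exact Polynomial.eq_zero_of_infinite_isRoot P (infinite_of_mem_nhds t₀ (hTinj _ (hpolyan P) hP))
  refine ⟨E, inferInstance, hcz, inferInstance, D, T, hTc, hTmul, hTder, hTcongr, hai, hTsum, ?_⟩
  rintro f hf ⟨P, hP0, hP⟩
  rw [mem_cl, alg_iff hτtr]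
  refine ⟨P, hP0, ?_⟩
  have h2 := hmv ![fun s => s, f] (by
    intro j
    fin_cases j
    · exact hid
    · exact hf) P
  have h3 : (fun j => T ((![fun s => s, f] : Fin 2 → ℂ → ℂ) j)) = ![T (fun s => s), T f] := by
    funext j
    fin_cases j <;> rfl
  rw [h3] at h2
  rw [← h2, ← hT0]
  apply hTcongr
  filter_upwards [hP] with t ht
  rw [← ht]
  congr 2
  funext j
  fin_cases j <;> rfl

/-- families of functions near `t₀` each member of which has a derivative which is a nonzero multiple of the next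
function, or of the product of the function and the next one -/
structure TowersAt {γ : Type} (t₀ : ℂ) (G : γ → ℕ → ℂ → ℂ) : Prop where
  deriv : ∀ c k, ∃ a : ℂ, a ≠ 0 ∧ ((∀ᶠ z in 𝓝 t₀, HasDerivAt (G c k) (a * G c (k + 1) z) z) ∨
    (∀ᶠ z in 𝓝 t₀, HasDerivAt (G c k) (a * G c k z * G c (k + 1) z) z))
  indep : ∀ P : MvPolynomial (γ × ℕ) ℂ, (∀ᶠ z in 𝓝 t₀, MvPolynomial.eval (fun y => G y.1 y.2 z) P = 0) → P = 0

theorem TowersAt.an {γ : Type} {t₀ : ℂ} {G : γ → ℕ → ℂ → ℂ} (h : TowersAt t₀ G) (c : γ) (k : ℕ) :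
    AnalyticAt ℂ (G c k) t₀ := by
  obtain ⟨a, -, h1 | h1⟩ := h.deriv c k
  · exact an_of_deriv h1
  · exact an_of_deriv h1

variable {κ : Type} [Fintype κ] [DecidableEq κ]

theorem locInd_joint' {γ Y : Type} [Fintype γ] [Nonempty γ] {t₀ : ℂ} {u : κ → ℂ → ℂ}
    (hu : ∀ i, AnalyticAt ℂ (u i) t₀) (hua : ∀ i, AlgAt t₀ (u i)) {J : List κ → ℂ → ℂ}
    (hJ0 : ∀ᶠ t in 𝓝 t₀, J [] t = 1)
    (hJ : ∀ i w, ∀ᶠ t in 𝓝 t₀, HasDerivAt (J (i :: w)) (u i t * J w t) t) (W : ℕ) {b : Y → ℂ → ℂ} (y₀ : Y)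
    (hy₀ : b y₀ = fun s => s) (hban : ∀ y, AnalyticAt ℂ (b y) t₀)
    (hb : ∀ P : MvPolynomial Y ℂ, (∀ᶠ t in 𝓝 t₀, MvPolynomial.eval (fun y => b y t) P = 0) → P = 0)
    (hbJ : ∀ y, y ≠ y₀ → ∃ cf : List κ → ℂ, ∀ᶠ t in 𝓝 t₀, b y t = ∑ w ∈ wd κ W, cf w * J w t)
    {G : γ → ℕ → ℂ → ℂ} (hG : TowersAt t₀ G) (r : ℕ) :
    ∀ P : MvPolynomial (Y ⊕ (γ × Fin r)) ℂ,
      (∀ᶠ t in 𝓝 t₀, MvPolynomial.eval (fun x => Sum.elim b (fun y : γ × Fin r => G y.1 y.2) x t) P = 0) → P = 0 := by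
  classical
  obtain ⟨E, _, _, _, D, T, hTc, hTmul, hTder, hTcongr, hai, hTsum, halg⟩ := germX t₀
  have hT1 : T (fun _ => 1) = 1 := by rw [hTc, map_one]
  have hDτ : D (T fun s => s) = 1 := by
    rw [hTder (fun s => s) (fun _ => 1) analyticAt_id (Eventually.of_forall fun s => hasDerivAt_id s), hT1]
  have hJan : ∀ w, AnalyticAt ℂ (J w) t₀ := by
    intro w
    cases w with
    | nil => exact (analyticAt_const (v := (1 : ℂ))).congr (hJ0.mono fun s hs => hs.symm)
    | cons i w => exact an_of_deriv (hJ i w)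
  have hJ1 : T (J []) = 1 := by
    rw [← hT1]
    exact hTcongr _ _ hJ0
  set A : Set E := insert (T fun s => s) ((fun w => T (J w)) '' (wd κ W : Set (List κ))) with hA
  have hAfin : A.Finite := ((Finset.finite_toSet _).image _).insert _
  have hJA : ∀ w ∈ wd κ W, T (J w) ∈ clF ℂ A := fun w hw => mem_clF.2 (subset_cl _ (Or.inr ⟨w, hw, rfl⟩))
  have huA : ∀ i, T (u i) ∈ clF ℂ A := by
    intro i
    refine mem_clF.2 (cl_mono ?_ (halg _ (hu i) (hua i)))
    rintro x rfl
    exact mem_insert _ _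
  have hDA : ∀ a ∈ A, D a ∈ cl ℂ A := by
    rintro a (rfl | ⟨w, hw, rfl⟩)
    · rw [hDτ, ← mem_clF]
      exact one_mem _
    · cases w with
      | nil =>
        show D (T (J [])) ∈ _
        rw [hJ1, ← map_one (algebraMap ℂ E), D.map_algebraMap, ← mem_clF]
        exact zero_mem _
      | cons i w =>
        have h1 : D (T (J (i :: w))) = T (u i) * T (J w) := by
          rw [← hTmul _ _ (hu i) (hJan w)]
          exact hTder _ _ (hJan _) (hJ i w)
        show D (T (J (i :: w))) ∈ _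
        rw [h1, ← mem_clF]
        refine mul_mem (huA i) (hJA w ?_)
        have h2 : (i :: w).length ≤ W := (mem_wd W _).1 (Finset.mem_coe.1 hw)
        rw [mem_wd]
        rw [List.length_cons] at h2
        omega
  have hbA : ∀ y, T (b y) ∈ cl ℂ A := by
    intro y
    by_cases hy : y = y₀
    · rw [hy, hy₀]
      exact subset_cl _ (mem_insert _ _)
    · obtain ⟨cf, hcf⟩ := hbJ y hy
      have h1 : T (b y) = ∑ w ∈ wd κ W, algebraMap ℂ E (cf w) * T (J w) := by
        rw [hTcongr _ _ hcf, hTsum _ (fun w t => cf w * J w t) fun w => analyticAt_const.mul (hJan w)]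
        refine Finset.sum_congr rfl fun w _ => ?_
        rw [hTmul _ _ analyticAt_const (hJan w), hTc]
      rw [h1, ← mem_clF]
      exact sum_mem fun w hw => mul_mem (algebraMap_mem_clF _ _) (hJA w hw)
  have hGi : AlgebraicIndependent ℂ (fun y : γ × ℕ => T (G y.1 y.2)) :=
    (hai (fun y : γ × ℕ => G y.1 y.2) fun y => hG.an y.1 y.2).2 hG.indep
  have hbi : AlgebraicIndependent ℂ (fun y => T (b y)) := (hai b hban).2 hb
  have hne : ∀ c k, T (G c k) ≠ 0 := fun c k => hGi.ne_zero (c, k)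
  have hinj : ∀ a : ℂ, a ≠ 0 → algebraMap ℂ E a ≠ 0 := fun a ha => by
    rwa [Ne, FaithfulSMul.algebraMap_eq_zero_iff]
  have hup : ∀ c k, D (T (G c k)) ∈ cl ℂ {T (G c k), T (G c (k + 1))} := by
    intro c k
    rw [← mem_clF]
    have m1 : T (G c k) ∈ clF ℂ {T (G c k), T (G c (k + 1))} := mem_clF.2 (subset_cl _ (Or.inl rfl))
    have m2 : T (G c (k + 1)) ∈ clF ℂ {T (G c k), T (G c (k + 1))} := mem_clF.2 (subset_cl _ (Or.inr rfl))
    obtain ⟨a, ha, h1 | h1⟩ := hG.deriv c k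
    · rw [hTder _ _ (hG.an c k) h1, hTmul _ _ analyticAt_const (hG.an c (k + 1)), hTc]
      exact mul_mem (algebraMap_mem_clF _ _) m2
    · rw [hTder _ _ (hG.an c k) h1, hTmul (fun z => a * G c k z) (G c (k + 1)) (analyticAt_const.mul (hG.an c k))
        (hG.an c (k + 1)), hTmul _ _ analyticAt_const (hG.an c k), hTc]
      exact mul_mem (mul_mem (algebraMap_mem_clF _ _) m1) m2
  have hdown : ∀ c k, T (G c (k + 1)) ∈ cl ℂ {T (G c k), D (T (G c k))} := by
    intro c k
    rw [← mem_clF]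
    have m1 : T (G c k) ∈ clF ℂ {T (G c k), D (T (G c k))} := mem_clF.2 (subset_cl _ (Or.inl rfl))
    have m2 : D (T (G c k)) ∈ clF ℂ {T (G c k), D (T (G c k))} := mem_clF.2 (subset_cl _ (Or.inr rfl))
    obtain ⟨a, ha, h1 | h1⟩ := hG.deriv c k
    · have h2 : D (T (G c k)) = algebraMap ℂ E a * T (G c (k + 1)) := by
        rw [hTder _ _ (hG.an c k) h1, hTmul _ _ analyticAt_const (hG.an c (k + 1)), hTc]
      have h3 : T (G c (k + 1)) = (algebraMap ℂ E a)⁻¹ * D (T (G c k)) := by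
        rw [h2, inv_mul_cancel_left₀ (hinj a ha)]
      rw [h3]
      exact mul_mem (inv_mem (algebraMap_mem_clF _ _)) m2
    · have h2 : D (T (G c k)) = algebraMap ℂ E a * T (G c k) * T (G c (k + 1)) := by
        rw [hTder _ _ (hG.an c k) h1, hTmul (fun z => a * G c k z) (G c (k + 1)) (analyticAt_const.mul (hG.an c k))
          (hG.an c (k + 1)), hTmul _ _ analyticAt_const (hG.an c k), hTc]
      have h3 : T (G c (k + 1)) = (algebraMap ℂ E a * T (G c k))⁻¹ * D (T (G c k)) := by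
        rw [h2, inv_mul_cancel_left₀ (mul_ne_zero (hinj a ha) (hne c k))]
      rw [h3]
      exact mul_mem (inv_mem (mul_mem (algebraMap_mem_clF _ _) m1)) m2
  have hall := towers_indep (H := fun c k => T (G c k)) hup hdown hGi hAfin hDA hbi hbA r
  have hfun : (Sum.elim (fun y => T (b y)) fun y : γ × Fin r => T (G y.1 y.2)) =
      fun x => T (Sum.elim b (fun y : γ × Fin r => G y.1 y.2) x) := by
    funext x
    rcases x with y | y
    · rfl
    · rfl
  rw [hfun] at hall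
  refine (hai (Sum.elim b fun y : γ × Fin r => G y.1 y.2) ?_).1 hall
  rintro (y | y)
  · exact hban y
  · exact hG.an y.1 y.2

theorem locInd_joint {γ Y : Type} [Fintype γ] [Nonempty γ] {t₀ : ℂ} {u : κ → ℂ → ℂ}
    (hu : ∀ i, AnalyticAt ℂ (u i) t₀) (hua : ∀ i, AlgAt t₀ (u i)) {J : List κ → ℂ → ℂ}
    (hJ0 : ∀ᶠ t in 𝓝 t₀, J [] t = 1)
    (hJ : ∀ i w, ∀ᶠ t in 𝓝 t₀, HasDerivAt (J (i :: w)) (u i t * J w t) t) (W : ℕ) {b : Y → ℂ → ℂ}
    (hban : ∀ y, AnalyticAt ℂ (b y) t₀) (hb : Pool.Agent.Y124.LocInd b t₀)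
    (hbJ : ∀ y, ∃ cf : List κ → ℂ, ∀ᶠ t in 𝓝 t₀, b y t = ∑ w ∈ wd κ W, cf w * J w t)
    {G : γ → ℕ → ℂ → ℂ} (hG : TowersAt t₀ G) (r : ℕ) :
    Pool.Agent.Y124.LocInd (Sum.elim b fun y : γ × Fin r => G y.1 y.2) t₀ := by
  classical
  have h1 := locInd_joint' (Y := Option Y) hu hua hJ0 hJ W (b := fun o t => o.elim t fun y => b y t) none rfl (by
    intro y
    cases y with
    | none => exact analyticAt_id
    | some y => exact hban y) hb (by
    intro y hy
    cases y with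
    | none => exact absurd rfl hy
    | some y => exact hbJ y) hG r
  intro P hP
  let e : Option (Y ⊕ (γ × Fin r)) → Option Y ⊕ (γ × Fin r) := fun o =>
    o.elim (Sum.inl none) (Sum.elim (fun y => Sum.inl (some y)) Sum.inr)
  have he : Function.Injective e := by
    rintro (_ | (x | x)) (_ | (y | y)) hxy
    · rfl
    · exact absurd (Sum.inl.inj hxy) (by simp)
    · exact absurd hxy (by simp [e])
    · exact absurd (Sum.inl.inj hxy) (by simp)
    · rw [Option.some.inj (Sum.inl.inj hxy)]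
    · exact absurd hxy (by simp [e])
    · exact absurd hxy (by simp [e])
    · exact absurd hxy (by simp [e])
    · rw [Sum.inr.inj hxy]
  have h2 := h1 (MvPolynomial.rename e P) (by
    filter_upwards [hP] with t ht
    rw [MvPolynomial.eval_rename, ← ht]
    congr 2
    funext o
    rcases o with _ | (y | y)
    · rfl
    · rfl
    · rfl)
  exact MvPolynomial.rename_injective e he (by rw [h2, map_zero])

end Pool.Agent.Y900.JT
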