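import Pool.Agent.Y900.JT.Main
import Pool.Agent.Y922.ZF.Full

/-!
# The towers of the Gamma function and of Dirichlet L-functions
-/

set_option autoImplicit false

open Filter Set
open scoped Topology

namespace Pool.Agent.Y900.JT

/-- `Γ`, the derivatives of the digamma function, and the derivatives of shifted Dirichlet L-functions -/
noncomputable def gz {q r : ℕ} [NeZero q] (a : Fin r → ℝ) (c : Option (DirichletCharacter ℂ q × Fin r)) (k : ℕ) (z : ℂ) :
    ℂ :=
  match c, k with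
  | none, 0 => Complex.Gamma z
  | none, k + 1 => iteratedDeriv k Complex.digamma z
  | some y, k => iteratedDeriv k (DirichletCharacter.LFunction y.1) (z + a y.2)

theorem deriv_iter {f : ℂ → ℂ} {z : ℂ} (hf : AnalyticAt ℂ f z) (k : ℕ) :
    HasDerivAt (iteratedDeriv k f) (iteratedDeriv (k + 1) f z) z := by
  rw [iteratedDeriv_succ]
  exact (Pool.Agent.Y922.ZF.iter_analytic hf k).differentiableAt.hasDerivAt

theorem lf_an {q : ℕ} [NeZero q] (χ : DirichletCharacter ℂ q) {z : ℂ} (hz : z ≠ 1) :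
    AnalyticAt ℂ (DirichletCharacter.LFunction χ) z := by
  have h2 : ∀ᶠ z in 𝓝 z, DifferentiableAt ℂ (DirichletCharacter.LFunction χ) z := by
    filter_upwards [isOpen_ne.mem_nhds hz] with z hz
    exact DirichletCharacter.differentiableAt_LFunction χ z (Or.inl hz)
  exact Complex.analyticAt_iff_eventually_differentiableAt.2 h2

theorem gz_deriv {q r : ℕ} [NeZero q] (a : Fin r → ℝ) (c : Option (DirichletCharacter ℂ q × Fin r)) (k : ℕ) :
    (∀ z : ℂ, (∀ m : ℕ, z ≠ -m) → (∀ j, z + a j ≠ 1) → HasDerivAt (gz a c k) (1 * gz a c (k + 1) z) z) ∨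
    (∀ z : ℂ, (∀ m : ℕ, z ≠ -m) → (∀ j, z + a j ≠ 1) →
      HasDerivAt (gz a c k) (1 * gz a c k z * gz a c (k + 1) z) z) := by
  rcases c with _ | ⟨χ, j⟩
  · rcases k with _ | k
    · right
      intro z hz _
      have h1 : HasDerivAt Complex.Gamma (deriv Complex.Gamma z) z := (Complex.differentiableAt_Gamma z hz).hasDerivAt
      have h2 : deriv Complex.Gamma z = 1 * Complex.Gamma z * Complex.digamma z := by
        rw [Complex.digamma_def, logDeriv_apply, one_mul, mul_div_cancel₀ _ (Complex.Gamma_ne_zero hz)]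
      rw [h2] at h1
      exact h1
    · left
      intro z hz _
      rw [one_mul]
      exact deriv_iter (Pool.Agent.Y922.ZF.digamma_analytic hz) k
  · left
    intro z _ hz
    rw [one_mul]
    have h1 := deriv_iter (lf_an χ (hz j)) k
    have h2 := h1.comp_add_const z (a j : ℂ)
    exact h2

theorem gz_an {q r : ℕ} [NeZero q] (a : Fin r → ℝ) (c : Option (DirichletCharacter ℂ q × Fin r)) (k : ℕ) {z : ℂ}
    (hz : ∀ m : ℕ, z ≠ -m) (hz' : ∀ j, z + a j ≠ 1) : AnalyticAt ℂ (gz a c k) z := by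
  rcases c with _ | ⟨χ, j⟩
  · rcases k with _ | k
    · exact Pool.Agent.Y922.ZF.gamma_analytic hz
    · exact Pool.Agent.Y922.ZF.dg_analytic k hz
  · have h1 := Pool.Agent.Y922.ZF.iter_analytic (lf_an χ (hz' j)) k
    have h2 : AnalyticAt ℂ (fun s : ℂ => s + (a j : ℂ)) z := analyticAt_id.add analyticAt_const
    exact AnalyticAt.comp (g := iteratedDeriv k (DirichletCharacter.LFunction χ)) (f := fun s : ℂ => s + (a j : ℂ)) h1 h2

/-- the index in the theorem of helper922 -/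
def egz {q r K : ℕ} (y : Option (DirichletCharacter ℂ q × Fin r) × Fin (K + 1)) :
    Pool.Agent.Y922.ZF.Idx 0 q r K (K + 1) :=
  match y with
  | (none, ⟨0, _⟩) => Sum.inr (Sum.inl ())
  | (none, ⟨k + 1, hk⟩) => Sum.inr (Sum.inr (Sum.inl ⟨k, Nat.lt_of_succ_lt_succ hk⟩))
  | (some y, k) => Sum.inr (Sum.inr (Sum.inr (y.1, y.2, k)))

theorem egz_inj {q r K : ℕ} : Function.Injective (egz (q := q) (r := r) (K := K)) := by
  rintro ⟨_ | ⟨χ, j⟩, ⟨_ | k, hk⟩⟩ ⟨_ | ⟨χ', j'⟩, ⟨_ | k', hk'⟩⟩ h <;> simp_all [egz]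

/-- the domain -/
def dom {r : ℕ} (a : Fin r → ℝ) : Set ℂ := {z | (∀ m : ℕ, z ≠ -m) ∧ ∀ j, z + a j ≠ 1}

theorem dom_pre {r : ℕ} (a : Fin r → ℝ) : IsPreconnected (dom a) := by
  have h1 : dom a = ((Set.range fun m : ℕ => (-(m : ℂ))) ∪ Set.range fun j => (1 : ℂ) - a j)ᶜ := by
    ext z
    simp only [dom, mem_ofPred, mem_compl_iff, mem_union, mem_range, not_or, not_exists]
    constructor
    · rintro ⟨h1, h2⟩
      exact ⟨fun m hm => h1 m hm.symm, fun j hj => h2 j (by rw [← hj]; ring)⟩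
    · rintro ⟨h1, h2⟩
      exact ⟨fun m hm => h1 m hm.symm, fun j hj => h2 j (by rw [← hj]; ring)⟩
  rw [h1]
  exact Pool.Agent.Y922.ZF.pre_of_countable ((countable_range _).union (countable_range _))

theorem dom_large {r : ℕ} (a : Fin r → ℝ) : ∀ᶠ s : ℝ in atTop, (s : ℂ) ∈ dom a := by
  have h1 : ∀ᶠ s : ℝ in atTop, ∀ j, 1 - a j < s := eventually_all.2 fun j => eventually_gt_atTop _
  filter_upwards [h1, eventually_gt_atTop (0 : ℝ)] with s hs hs0
  refine ⟨fun m hm => ?_, fun j hj => ?_⟩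
  · have h2 := congrArg Complex.re hm
    simp only [Complex.ofReal_re, Complex.neg_re, Complex.natCast_re] at h2
    have : (0 : ℝ) ≤ m := Nat.cast_nonneg m
    linarith
  · have h2 := congrArg Complex.re hj
    simp only [Complex.add_re, Complex.ofReal_re, Complex.one_re] at h2
    have := hs j
    linarith

theorem gz_indep {q r : ℕ} [NeZero q] {a : Fin r → ℝ} (ha : Function.Injective a) {p : ℂ} (hp : p ∈ dom a)
    (P : MvPolynomial (Option (DirichletCharacter ℂ q × Fin r) × ℕ) ℂ)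
    (hP : ∀ᶠ z in 𝓝 p, MvPolynomial.eval (fun y => gz a y.1 y.2 z) P = 0) : P = 0 := by
  classical
  obtain ⟨K, hK⟩ : ∃ K : ℕ, ∀ y ∈ P.vars, y.2 < K + 1 :=
    ⟨P.vars.sup Prod.snd, fun y hy => Nat.lt_succ_of_le (Finset.le_sup (f := Prod.snd) hy)⟩
  let j : Option (DirichletCharacter ℂ q × Fin r) × Fin (K + 1) → Option (DirichletCharacter ℂ q × Fin r) × ℕ :=
    fun y => (y.1, (y.2 : ℕ))
  have hj : Function.Injective j := by
    rintro ⟨x, k⟩ ⟨x', k'⟩ h
    rw [Prod.mk.injEq] at h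
    exact Prod.ext h.1 (Fin.ext h.2)
  obtain ⟨P', rfl⟩ := MvPolynomial.exists_rename_eq_of_vars_subset_range P j hj (by
    intro y hy
    exact ⟨(y.1, ⟨y.2, hK y hy⟩), rfl⟩)
  have hloc := Pool.Agent.Y922.ZF.locInd_gen 0 q r K (K + 1) (fun l => l.elim0) (fun l => l.elim0)
    (fun v _ => funext fun l => l.elim0) a ha
    (fun y : Option (DirichletCharacter ℂ q × Fin r) × Fin (K + 1) => gz a y.1 y.2) egz egz_inj (by
      rintro ⟨_ | ⟨χ, l⟩, ⟨_ | k, hk⟩⟩ s <;> rfl) (dom a) (dom_pre a) (dom_large a)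
    (fun y t ht => gz_an a y.1 y.2 ht.1 ht.2) p hp
  have h0 := hloc (MvPolynomial.rename some P') (by
    filter_upwards [hP] with z hz
    rw [MvPolynomial.eval_rename] at hz ⊢
    exact hz)
  have h1 : P' = 0 := MvPolynomial.rename_injective some (Option.some_injective _) (by rw [h0, map_zero])
  rw [h1, map_zero]

theorem gz_towers {q r : ℕ} [NeZero q] {a : Fin r → ℝ} (ha : Function.Injective a) {U : Set ℂ} (hU : U ⊆ dom a)
    {p : ℂ} (hp : p ∈ U) : Towers U p (gz (q := q) a) := by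
  refine ⟨fun c k => ⟨1, one_ne_zero, ?_⟩, fun P hP => gz_indep ha (hU hp) P hP⟩
  rcases gz_deriv (q := q) a c k with h | h
  · exact Or.inl fun z hz => h z (hU hz).1 (hU hz).2
  · exact Or.inr fun z hz => h z (hU hz).1 (hU hz).2

end Pool.Agent.Y900.JT
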