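import Pool.Agent.Y900.HY.Main
import Pool.Agent.Y900.JT.Ger

/-!
# Linear relations between products of values of iterated primitives and members of towers of derivatives
-/

set_option autoImplicit false

open Filter Set NumberField
open scoped Topology

namespace Pool.Agent.Y900.JT

open Pool.Agent.Y900.HY
open H569R3.Hall
open Pool.Agent.Y119.UP (wd mem_wd)
open Pool.Agent.Y124 Pool.Agent.Y120

variable {κ : Type} [Fintype κ] [DecidableEq κ]

/-- the iterated primitives as polynomials in the functions attached to the Hall trees -/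
theorem iter_rep {U : Set ℂ} (hU : IsOpen U) (hUc : IsPreconnected U)
    {u : κ → ℂ → ℂ} {I : List κ → ℂ → ℂ} (hI : Iter U u I) {p : ℂ} (hp : p ∈ U) (hg : Good p u) (W : ℕ) :
    ∃ (N : ℕ) (b : Wd κ W → Wd κ W → (YT κ W → Fin (W + 1)) → ℤ) (kap : Wd κ W → ℂ), 0 < N ∧
      (∀ (w : Wd κ W), ∀ t ∈ U, (N : ℂ) * I w.1 t =
        ∑ x : YT κ W → Fin (W + 1), (∑ v, kap v * ((b w v x : ℤ) : ℂ)) * ∏ y, FY (nrm I p) y t ^ (x y : ℕ)) ∧
      (∀ a : Wd κ W → ℂ, (∀ x, ∑ w, a w * ∑ v, kap v * ((b w v x : ℤ) : ℂ) = 0) → a = 0) := by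
  classical
  obtain ⟨hJ, h0⟩ := nrm_iter hU hI p hp
  set J := nrm I p with hJdef
  -- the coefficients
  have hβ : ∀ w : List κ, ∃ β : (YT κ W → Fin (W + 1)) → ℚ, w.length ≤ W →
      ∀ t ∈ U, J w t = ∑ x : YT κ W → Fin (W + 1), ((β x : ℚ) : ℂ) * ∏ y, FY J y t ^ (x y : ℕ) := by
    intro w
    by_cases hw : w.length ≤ W
    · obtain ⟨β, hβ⟩ := exists_coeff W w.reverse (by rwa [List.length_reverse])
      refine ⟨β, fun _ t ht => ?_⟩
      have h2 : J w t = ev J t (e w.reverse) := by rw [ev_e, List.reverse_reverse]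
      have h3 : ev J t (e w.reverse) = ev J t (ofR DD (∑ x : YT κ W → Fin (W + 1), β x • MO fun y => (x y : ℕ))) := by
        rw [hβ]
        rfl
      have h4 : ev J t (ofR DD (∑ x : YT κ W → Fin (W + 1), β x • MO fun y => (x y : ℕ))) =
          ∑ x : YT κ W → Fin (W + 1), ev J t (ofR DD (β x • MO fun y => (x y : ℕ))) := by
        have : ∀ S : Finset (YT κ W → Fin (W + 1)), ev J t (ofR DD (∑ x ∈ S, β x • MO fun y => (x y : ℕ))) =
            ∑ x ∈ S, ev J t (ofR DD (β x • MO fun y => (x y : ℕ))) := by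
          intro S
          induction S using Finset.induction_on with
          | empty =>
            rw [Finset.sum_empty, Finset.sum_empty]
            exact map_zero (ev J t)
          | insert a S ha ih =>
            rw [Finset.sum_insert ha, Finset.sum_insert ha, ← ih]
            exact map_add (ev J t) _ _
        exact this Finset.univ
      rw [h2, h3, h4]
      refine Finset.sum_congr rfl fun x _ => ?_
      have h5 : ev J t (ofR DD (β x • MO fun y => (x y : ℕ))) = β x • ev J t (ofR DD (MO fun y => (x y : ℕ))) :=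
        map_smul (ev J t) _ _
      rw [h5, ev_MO hU hUc hJ hp h0 _ t ht, Rat.smul_def]
    · exact ⟨0, fun h => absurd h hw⟩
  choose β hβ' using hβ
  obtain ⟨N, nb, hN, hnb⟩ := common_den (fun (w : Wd κ W) x => β w.1 x)
  -- integral coefficients for all words
  let nβ : List κ → (YT κ W → Fin (W + 1)) → ℤ := fun w x => if hw : w ∈ wd κ W then nb ⟨w, hw⟩ x else 0
  have hnβ : ∀ w : List κ, w.length ≤ W → ∀ t ∈ U, (N : ℂ) * J w t =
      ∑ x : YT κ W → Fin (W + 1), ((nβ w x : ℤ) : ℂ) * ∏ y, FY J y t ^ (x y : ℕ) := by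
    intro w hw t ht
    rw [hβ' w hw t ht, Finset.mul_sum]
    refine Finset.sum_congr rfl fun x _ => ?_
    have hmem : w ∈ wd κ W := by rwa [mem_wd]
    have h1 : nβ w x = nb ⟨w, hmem⟩ x := dif_pos hmem
    have h2 := hnb ⟨w, hmem⟩ x
    have h3 : (((nb ⟨w, hmem⟩ x : ℤ) : ℚ) : ℂ) = ((N : ℚ) : ℂ) * ((β w x : ℚ) : ℂ) := by
      rw [h2]
      push_cast
      ring
    rw [h1]
    have h4 : ((nb ⟨w, hmem⟩ x : ℤ) : ℂ) = (N : ℂ) * ((β w x : ℚ) : ℂ) := by
      simpa using h3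
    rw [h4]
    ring
  let b : Wd κ W → Wd κ W → (YT κ W → Fin (W + 1)) → ℤ := fun w v x =>
    ∑ k ∈ Finset.range (w.1.length + 1), if w.1.drop k = v.1 then nβ (w.1.take k) x else 0
  let kap : Wd κ W → ℂ := fun v => I v.1 p
  have hb : ∀ (w : Wd κ W) x, ∑ v, kap v * ((b w v x : ℤ) : ℂ) =
      ∑ k ∈ Finset.range (w.1.length + 1), I (w.1.drop k) p * ((nβ (w.1.take k) x : ℤ) : ℂ) := by
    intro w x
    have e1 : ∀ v : Wd κ W, kap v * ((b w v x : ℤ) : ℂ) = ∑ k ∈ Finset.range (w.1.length + 1),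
        if w.1.drop k = v.1 then I v.1 p * ((nβ (w.1.take k) x : ℤ) : ℂ) else 0 := by
      intro v
      simp only [kap, b]
      push_cast
      rw [Finset.mul_sum]
      refine Finset.sum_congr rfl fun k _ => ?_
      split_ifs <;> simp
    rw [Finset.sum_congr rfl fun v _ => e1 v, Finset.sum_comm]
    refine Finset.sum_congr rfl fun k hk => ?_
    have hmem : w.1.drop k ∈ wd κ W := by
      have h1 := (mem_wd W w.1).1 w.2
      rw [mem_wd, List.length_drop]
      omega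
    rw [Finset.sum_eq_single (⟨w.1.drop k, hmem⟩ : Wd κ W)]
    · rw [if_pos rfl]
    · intro v _ hv
      rw [if_neg]
      intro hcon
      exact hv (Subtype.ext hcon.symm)
    · intro hcon
      exact absurd (Finset.mem_univ _) hcon
  have hIrep : ∀ (w : Wd κ W), ∀ t ∈ U, (N : ℂ) * I w.1 t =
      ∑ x : YT κ W → Fin (W + 1), (∑ v, kap v * ((b w v x : ℤ) : ℂ)) * ∏ y, FY J y t ^ (x y : ℕ) := by
    intro w t ht
    have hw := (mem_wd W w.1).1 w.2
    rw [iter_eq I p t (hI.nil p hp) w.1, Finset.mul_sum]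
    have e1 : ∀ k ∈ Finset.range (w.1.length + 1), (N : ℂ) * (nrm I p (w.1.take k) t * I (w.1.drop k) p) =
        ∑ x : YT κ W → Fin (W + 1), (I (w.1.drop k) p * ((nβ (w.1.take k) x : ℤ) : ℂ)) *
          ∏ y, FY J y t ^ (x y : ℕ) := by
      intro k hk
      have h1 := hnβ (w.1.take k) (by rw [List.length_take]; omega) t ht
      rw [← hJdef, ← mul_assoc, h1, Finset.sum_mul]
      refine Finset.sum_congr rfl fun x _ => ?_
      ring
    rw [Finset.sum_congr rfl e1, Finset.sum_comm]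
    refine Finset.sum_congr rfl fun x _ => ?_
    rw [hb, Finset.sum_mul]
  refine ⟨N, b, kap, hN, hIrep, ?_⟩
  -- injectivity
  intro a ha
  have hzero : ∀ t ∈ U, ∑ w : Wd κ W, a w * I w.1 t = 0 := by
    intro t ht
    have hN0 : (N : ℂ) ≠ 0 := by exact_mod_cast hN.ne'
    apply mul_left_cancel₀ hN0
    rw [mul_zero, Finset.mul_sum]
    have e1 : ∀ w : Wd κ W, (N : ℂ) * (a w * I w.1 t) = ∑ x : YT κ W → Fin (W + 1),
        (a w * ∑ v, kap v * ((b w v x : ℤ) : ℂ)) * ∏ y, FY J y t ^ (x y : ℕ) := by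
      intro w
      rw [mul_left_comm, hIrep w t ht, Finset.mul_sum]
      refine Finset.sum_congr rfl fun x _ => ?_
      ring
    rw [Finset.sum_congr rfl fun w _ => e1 w, Finset.sum_comm]
    refine Finset.sum_eq_zero fun x _ => ?_
    rw [← Finset.sum_mul, ha x, zero_mul]
  let q : List κ → Polynomial ℂ := fun w => if hw : w ∈ wd κ W then Polynomial.C (a ⟨w, hw⟩) else 0
  have hlin := lin_ind p hg.an hg.alg hg.prim (Iter.near hU hI hp).1 (Iter.near hU hI hp).2 W q (by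
    filter_upwards [hU.mem_nhds hp] with t ht
    rw [← hzero t ht, ← Finset.sum_coe_sort (wd κ W) (fun w => (q w).eval t * I w t)]
    refine Finset.sum_congr rfl fun w _ => ?_
    have h1 : q w.1 = Polynomial.C (a w) := dif_pos w.2
    rw [h1, Polynomial.eval_C])
  funext w
  have h1 := hlin w.1 w.2
  have h2 : q w.1 = Polynomial.C (a w) := dif_pos w.2
  rw [h2, Polynomial.C_eq_zero] at h1
  exact h1

/-- families of functions on `U` each member of which has a derivative which is a nonzero multiple of the next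
function, or of the product of the function and the next one -/
structure Towers {γ : Type} (U : Set ℂ) (p : ℂ) (G : γ → ℕ → ℂ → ℂ) : Prop where
  deriv : ∀ c k, ∃ a : ℂ, a ≠ 0 ∧ ((∀ z ∈ U, HasDerivAt (G c k) (a * G c (k + 1) z) z) ∨
    (∀ z ∈ U, HasDerivAt (G c k) (a * G c k z * G c (k + 1) z) z))
  indep : ∀ P : MvPolynomial (γ × ℕ) ℂ, (∀ᶠ z in 𝓝 p, MvPolynomial.eval (fun y => G y.1 y.2 z) P = 0) → P = 0

theorem Towers.at {γ : Type} {U : Set ℂ} (hU : IsOpen U) {p : ℂ} (hp : p ∈ U) {G : γ → ℕ → ℂ → ℂ}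
    (h : Towers U p G) : TowersAt p G := by
  refine ⟨fun c k => ?_, h.indep⟩
  obtain ⟨a, ha, h1 | h1⟩ := h.deriv c k
  · exact ⟨a, ha, Or.inl (by filter_upwards [hU.mem_nhds hp] with z hz using h1 z hz)⟩
  · exact ⟨a, ha, Or.inr (by filter_upwards [hU.mem_nhds hp] with z hz using h1 z hz)⟩

theorem Towers.an {γ : Type} {U : Set ℂ} (hU : IsOpen U) {p : ℂ} {G : γ → ℕ → ℂ → ℂ}
    (h : Towers U p G) (c : γ) (k : ℕ) : AnalyticOnNhd ℂ (G c k) U := by
  intro t ht
  obtain ⟨a, -, h1 | h1⟩ := h.deriv c k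
  · exact an_of_deriv (by filter_upwards [hU.mem_nhds ht] with z hz using h1 z hz)
  · exact an_of_deriv (by filter_upwards [hU.mem_nhds ht] with z hz using h1 z hz)

theorem locInd_FYG {γ : Type} [Fintype γ] [Nonempty γ] {U : Set ℂ} (hU : IsOpen U) (hUc : IsPreconnected U)
    {u : κ → ℂ → ℂ} {I : List κ → ℂ → ℂ} (hI : Iter U u I) {p : ℂ} (hp : p ∈ U) (hg : Good p u) (W r : ℕ)
    {G : γ → ℕ → ℂ → ℂ} (hG : Towers U p G) {t : ℂ} (ht : t ∈ U) :
    LocInd (Sum.elim (fun y : YT κ W => FY (nrm I p) y) fun y : γ × Fin r => G y.1 y.2) t := by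
  classical
  obtain ⟨hJ, h0⟩ := nrm_iter hU hI p hp
  refine locInd_spread hU hUc (Sum.elim (fun y : YT κ W => FY (nrm I p) y) fun y : γ × Fin r => G y.1 y.2) ?_ hp ?_ ht
  · rintro (y | y)
    · exact FY_an hU hJ y
    · exact hG.an hU y.1 y.2
  · obtain ⟨N, hN⟩ : ∃ N : ℕ, ∀ y : YT κ W, ∀ w, coef (AR y.t) w ≠ 0 → w.length ≤ N := by
      have h1 : ∀ y : YT κ W, ∃ N : ℕ, ∀ w, coef (AR y.t) w ≠ 0 → w.length ≤ N := by
        intro y
        refine ⟨((AR y.t : List κ →₀ ℚ).support).sup List.length, fun w hw => ?_⟩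
        exact Finset.le_sup (f := List.length) (Finsupp.mem_support_iff.2 hw)
      choose Nf hNf using h1
      exact ⟨Finset.univ.sup Nf, fun y w hw => (hNf y w hw).trans (Finset.le_sup (f := Nf) (Finset.mem_univ y))⟩
    refine locInd_joint hg.an hg.alg (Iter.near hU hJ hp).1 (Iter.near hU hJ hp).2 N
      (fun y => FY_an hU hJ y p hp) (locInd_of_good hU hUc hJ hp h0 W hp hg) (fun y => ?_) (hG.at hU hp) r
    exact ⟨fun w => ((coef (AR y.t) w.reverse : ℚ) : ℂ), Filter.Eventually.of_forall fun t =>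
      ev_eq_sum (nrm I p) t N (AR y.t) (hN y)⟩

theorem main_joint {γ h : Type} [Fintype γ] [DecidableEq γ] [Nonempty γ] [Fintype h] [DecidableEq h] {U : Set ℂ}
    (hU : IsOpen U) (hUc : IsPreconnected U)
    {u : κ → ℂ → ℂ} {I : List κ → ℂ → ℂ} (hI : Iter U u I) {p : ℂ} (hp : p ∈ U) (hg : Good p u)
    {G : γ → ℕ → ℂ → ℂ} (hG : Towers U p G) {L : Set ℂ}
    (hL : IsCompact L) (hLU : L ⊆ U) (m n W r d : ℕ) (A ε : ℝ) (hε : 0 < ε) :
    ∃ B C T₀ : ℝ, 0 ≤ C ∧ 2 ≤ T₀ ∧ ∀ (K : Type) [Field K] [NumberField K], Module.finrank ℚ K ≤ m → ∀ (io : K →+* ℂ)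
      (ξ : h → ℂ) (T : ℝ), T₀ ≤ T → ∀ E : Set (Fin n → K),
      (∀ t ∈ E, (∀ j, HtLe K T (t j) ∧ io (t j) ∈ L) ∧
        RelK K io ξ (fun w : Fin n → Wd κ W × (γ × Fin r → Fin (d + 1)) =>
          ∏ j, (I (w j).1.1 (io (t j)) * ∏ y, G y.1 y.2 (io (t j)) ^ ((w j).2 y : ℕ))) (T ^ A) (T ^ (-B))) →
      E.Finite ∧ (E.ncard : ℝ) ≤ C * T ^ ε * (({x : K | HtLe K T x ∧ io x ∈ L}.ncard : ℝ)) ^ (n - 1) := by
  classical
  obtain ⟨hJ, h0⟩ := nrm_iter hU hI p hp
  obtain ⟨N, b, kap, hN, hrep, hinj⟩ := iter_rep hU hUc hI hp hg W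
  set f : YT κ W ⊕ (γ × Fin r) → ℂ → ℂ := Sum.elim (fun y : YT κ W => FY (nrm I p) y) fun y : γ × Fin r => G y.1 y.2
    with hf
  have hfan : ∀ y, ∀ t ∈ U, AnalyticAt ℂ (f y) t := by
    rintro (y | y) t ht
    · exact FY_an hU hJ y t ht
    · exact hG.an hU y.1 y.2 t ht
  have hloc : ∀ t ∈ L, LocInd f t := fun t ht => locInd_FYG hU hUc hI hp hg W r hG (hLU ht)
  have hv : ∀ g, OneV g (fun R T => {t | t ∈ L ∧ Pt R T t}) (fun (t : ℂ) (y : YT κ W ⊕ (γ × Fin r)) => f y t) :=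
    fun g => oneV_of g f L hL (fun y t ht => hfan y t (hLU ht)) hloc
  -- exponents
  let ix : (YT κ W → Fin (W + 1)) × (γ × Fin r → Fin (d + 1)) → (YT κ W ⊕ (γ × Fin r) → Fin (W + d + 1)) := fun z =>
    Sum.elim (fun y => Fin.castLE (by omega) (z.1 y)) fun y => Fin.castLE (by omega) (z.2 y)
  have hix : Function.Injective ix := by
    rintro ⟨x, e⟩ ⟨x', e'⟩ hh
    refine Prod.ext ?_ ?_
    · funext y
      exact Fin.castLE_injective (show W + 1 ≤ W + d + 1 by omega) (congrFun hh (Sum.inl y))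
    · funext y
      exact Fin.castLE_injective (show d + 1 ≤ W + d + 1 by omega) (congrFun hh (Sum.inr y))
  let b' : Wd κ W × (γ × Fin r → Fin (d + 1)) → Wd κ W → (YT κ W ⊕ (γ × Fin r) → Fin (W + d + 1)) → ℤ :=
    fun w v x' => ∑ x : YT κ W → Fin (W + 1), if ix (x, w.2) = x' then b w.1 v x else 0
  have hb' : ∀ w x', ∑ v, kap v * ((b' w v x' : ℤ) : ℂ) =
      ∑ x : YT κ W → Fin (W + 1), if ix (x, w.2) = x' then ∑ v, kap v * ((b w.1 v x : ℤ) : ℂ) else 0 := by
    intro w x'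
    have e1 : ∀ v, kap v * ((b' w v x' : ℤ) : ℂ) = ∑ x : YT κ W → Fin (W + 1),
        if ix (x, w.2) = x' then kap v * ((b w.1 v x : ℤ) : ℂ) else 0 := by
      intro v
      simp only [b', Int.cast_sum, Finset.mul_sum]
      refine Finset.sum_congr rfl fun x _ => ?_
      split_ifs <;> simp
    rw [Finset.sum_congr rfl fun v _ => e1 v, Finset.sum_comm]
    refine Finset.sum_congr rfl fun x _ => ?_
    split_ifs
    · rfl
    · simp
  refine lin_engine m n (W + d) (fun (t : ℂ) (y : YT κ W ⊕ (γ × Fin r)) => f y t) L hv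
    (fun (w : Wd κ W × (γ × Fin r → Fin (d + 1))) t => I w.1.1 t * ∏ y, G y.1 y.2 t ^ (w.2 y : ℕ)) kap b' N hN
    (fun w t ht => ?_) ?_ A ε hε
  · rw [← mul_assoc, hrep w.1 t (hLU ht), Finset.sum_mul]
    have e1 : ∀ x' : YT κ W ⊕ (γ × Fin r) → Fin (W + d + 1), (∑ v, kap v * ((b' w v x' : ℤ) : ℂ)) *
        ∏ y, f y t ^ (x' y : ℕ) = ∑ x : YT κ W → Fin (W + 1), if ix (x, w.2) = x' then
          (∑ v, kap v * ((b w.1 v x : ℤ) : ℂ)) * ∏ y, f y t ^ (x' y : ℕ) else 0 := by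
      intro x'
      rw [hb', Finset.sum_mul]
      refine Finset.sum_congr rfl fun x _ => ?_
      split_ifs
      · rfl
      · rw [zero_mul]
    rw [Finset.sum_congr rfl fun x' _ => e1 x', Finset.sum_comm]
    refine Finset.sum_congr rfl fun x _ => ?_
    rw [Finset.sum_ite_eq, if_pos (Finset.mem_univ _), Fintype.prod_sum_type, mul_assoc]
    rfl
  · intro a ha
    funext ⟨w₁, e₁⟩
    have h1 := hinj (fun w => a (w, e₁)) (fun x => by
      have h2 := ha (ix (x, e₁))
      rw [Fintype.sum_prod_type] at h2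
      rw [← h2]
      refine Finset.sum_congr rfl fun w _ => ?_
      rw [Finset.sum_eq_single e₁]
      · rw [hb']
        congr 1
        rw [Finset.sum_eq_single x]
        · rw [if_pos rfl]
        · intro x'' _ hx''
          rw [if_neg]
          intro hcon
          exact hx'' (Prod.ext_iff.1 (hix hcon)).1
        · intro hcon
          exact absurd (Finset.mem_univ _) hcon
      · intro e₂ _ he₂
        rw [hb']
        refine mul_eq_zero_of_right _ (Finset.sum_eq_zero fun x'' _ => ?_)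
        rw [if_neg]
        intro hcon
        exact he₂ (Prod.ext_iff.1 (hix hcon)).2
      · intro hcon
        exact absurd (Finset.mem_univ _) hcon)
    exact congrFun h1 w₁

end Pool.Agent.Y900.JT
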